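import Pool.Agent.H20.KH.Asm
import Pool.Agent.H88.KG.COV

/-!
# Project KH: the complete theorem
-/

set_option autoImplicit false
set_option linter.unusedSectionVars false

open MeasureTheory Set Filter Topology
open scoped ContDiff ENNReal

namespace Pool.Agent.H20.KH

open Pool.Agent.H84 Pool.Agent.H84.Sym Pool.Agent.H84.Sym.P2x Pool.Agent.H19.KL
open Pool.Agent.H73.KG

section

variable (E : Type) [NormedAddCommGroup E] [InnerProductSpace ℝ E]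
    [FiniteDimensional ℝ E] [MeasurableSpace E] [BorelSpace E]

theorem a_zsm : ZSMStmt E := zsm_thm E
theorem a_pmg : PMGStmt E := Pool.Agent.H85.KG.pmg_thm E (bas_thm E) (a_zsm E)
theorem a_rgp : RGPStmt E := Pool.Agent.H85.KG.rgp_thm E (a_zsm E) (a_pmg E)
theorem a_pwb : PWBStmt E := Pool.Agent.H85.KG.pwb_thm E
theorem a_bay : BAYStmt E := bay_thm E (a_pwb E) (a_pmg E) (a_rgp E)
theorem a_rgc : RGCStmt E := rgc_thm E
theorem a_dyn : DYNStmt E := Pool.Agent.H85.KG.dyn_thm E (a_rgc E) (a_rgp E) (a_bay E)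
theorem a_cvr : CVRStmt E := cvr_thm E (a_pwb E) (a_rgc E) (a_rgp E)
theorem a_cov : COVStmt E :=
  cov_thm E (a_pwb E) (a_rgc E) (a_rgp E) (a_dyn E) (a_bay E) (a_cvr E)
theorem a_aag : AAGStmt E := Pool.Agent.H85.KG.aag_thm E (a_rgc E) (a_rgp E) (a_pwb E)
theorem a_fpb : FPBStmt E :=
  Pool.Agent.H4.KG.fpb_thm E (a_rgc E) (a_aag E) (bas_thm E) (a_pwb E)
theorem a_gin : GINStmt E := gin_thm2 E (bas_thm E) (a_pwb E) (eig_thm E)
  (Pool.Agent.H85.KG.whi_thm E (bas_thm E)) Pool.Agent.H47.KG.mti_thm (a_fpb E) (inv_thm' E)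
theorem a_trp : TRPStmt E := Pool.Agent.H59.KG.trp_thm (a_pwb E) (a_rgc E) (a_rgp E) (a_bay E)
  (a_dyn E) (a_fpb E) (a_gin E)
theorem a_hbb : HBBStmt E := hbb_thm E (bas_thm E) (a_pwb E) (a_rgc E) (a_rgp E) (a_bay E)
  (a_cvr E) (a_cov E) (a_aag E)
theorem a_mgl : MGLStmt E := mgl_thm E
theorem a_mga : MGAStmt E := mga_thm E (fun E => bas_thm E) (a_mgl E)
theorem a_sp2 : SP2Stmt E := sp2_thm E (a_mgl E)
theorem a_mq2 : MQ2Stmt E := mq2_thm E (a_mgl E) (a_sp2 E)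
theorem a_qs2 : QS2Stmt E := qs2_thm E (fun E => bas_thm E) (a_mgl E) (a_sp2 E)
theorem a_ol2 : OL2Stmt E := ol2_thm E (fun F => of2_thm F (osf_thm F))
theorem a_lis : LISStmt E := Pool.Agent.H47.KH.lis_thm E (bas_thm E) (li3_direct E)

end

theorem a_trq : TRQStmt := Pool.Agent.H47.KG.trq_thm (fun E => bas_thm E) (fun E => a_pwb E)
  (fun E => a_rgc E) (fun E => a_bay E) (fun E => a_dyn E) (fun E => a_aag E) (fun E => a_fpb E)
  fpi_thm (fun E => tk0_thm E (bas_thm E) (imp_thm E)) (fun E => a_trp E)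

theorem a_kfb : KFBStmt := kfb_thm (fun E => a_hbb E) a_trq

theorem a_ch2 : CH2Stmt := ch2_thm a_kfb (fun E => bas_thm E) (fun E => a_mgl E)
  (fun E => a_mga E) (fun _ => os0_thm) (fun E => a_ol2 E) (fun E => a_sp2 E)
  (fun E => a_qs2 E) (fun E => a_mq2 E)

theorem a_cf2 : CF2Stmt := cf2_thm (fun E => a_mgl E) (fun E => a_sp2 E) (fun E => a_mq2 E) a_ch2

theorem a_tm2 : TM2Stmt := tm2_thm (fun E => a_mgl E) (fun E => a_sp2 E) (fun E => a_mq2 E)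
  (tp2_thm (fun E => bas_thm E) a_kfb)

theorem a_ta2 : TA2Stmt := Pool.Agent.H45.KH.ta2_thm (fun E => bas_thm E) (fun E => cv2_thm E)
  (fun E => sc2_thm E) a_tm2 a_cf2 num_thm

theorem a_ql2 : QL2Stmt := ql2_thm a_ta2

theorem a_tkl : TKLStmt := tkl_of_ql2 a_ql2

theorem a_thb : THBStmt := thb_thm (fun E => bas_thm E) (fun E => a_pwb E) (fun E => a_rgc E)
  (fun E => a_bay E) (fun E => a_fpb E) (fun E => a_trp E) fpi_thm a_tkl

theorem a_vls : VLSStmt := vls_thm (fun E => bas_thm E) (fun E => imp_thm E) (fun E => a_pwb E)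
  (fun E => a_rgc E) (fun E => a_bay E) (fun E => a_cvr E) (fun E => a_cov E) (fun E => a_fpb E)
  fpi_thm a_thb

theorem a_tc2 : TC2Stmt := tc2_thm (fun E => bas_thm E) (fun E => a_pwb E) (fun E => a_rgc E)
  (fun E => a_bay E) (fun E => a_cvr E) (fun E => a_fpb E) fpi_thm (fun E => a_lis E) a_ql2 a_vls

theorem a_bd2 : BD2Stmt := bd2_thm (sl2_thm a_tc2) (fun E => lex_thm E)

/-- the hyperplane inequality with constant `C (log n)^{1/6} (log log n)^{1/3}` -/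
theorem all_thm : ∃ C : ℝ, 0 < C ∧ ∀ (n : ℕ) (Ω : Set (EuclideanSpace ℝ (Fin (n + 1)))),
      IsOpen Ω → Convex ℝ Ω → Bornology.IsBounded Ω → (∀ x ∈ Ω, -x ∈ Ω) → Ω.Nonempty →
      ∃ a : EuclideanSpace ℝ (Fin (n + 1)), ‖a‖ = 1 ∧
        ∀ S : Set (EuclideanSpace ℝ (Fin (n + 1))), MeasurableSet S → S ⊆ Ω →
          volume S = volume Ω / 2 →
          μH[(n:ℝ)] {x | x ∈ Ω ∧ inner ℝ a x = (0:ℝ)} ≤
            ENNReal.ofReal (C * (L1 (n + 1) * L2 (n + 1) ^ 2) ^ ((1:ℝ) / 6)) *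
              μH[(n:ℝ)] (Ω ∩ frontier S) :=
  final_thm a_bd2 (fun E => kre_thm E)

end Pool.Agent.H20.KH
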