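import Pool.Agent.H20.KH.LI3
import Pool.Agent.H20.KH.Final
import Pool.Agent.H12.KH.TC2
import Pool.Agent.H15.KH.BD2
import Pool.Agent.H18.KH.CH2
import Pool.Agent.H3.KH.VLS
import Pool.Agent.H33.KH.SC2
import Pool.Agent.H33.KH.SP2
import Pool.Agent.H4.KH.TM2
import Pool.Agent.H44.KH.CF2
import Pool.Agent.H44.KH.SL2
import Pool.Agent.H45.KH.TA2
import Pool.Agent.H47.KH.LIS
import Pool.Agent.H49.KH.QL2
import Pool.Agent.H62.KH.CV2
import Pool.Agent.H79.KH.MQ2
import Pool.Agent.H79.KH.QS2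
import Pool.Agent.H83.KH.OL2
import Pool.Agent.H12.KG.THB
import Pool.Agent.H12.KG.TK0
import Pool.Agent.H2.KG.EIG
import Pool.Agent.H22.KG.GIN
import Pool.Agent.H22.KG.KFB
import Pool.Agent.H27.KG.KRE
import Pool.Agent.H27.KG.LEX
import Pool.Agent.H3.KG.MGA
import Pool.Agent.H33.KG.INV
import Pool.Agent.H34.KG.CVR
import Pool.Agent.H4.KG.FPB
import Pool.Agent.H4.KG.MTD
import Pool.Agent.H45.KG.NUM
import Pool.Agent.H47.KG.MTI
import Pool.Agent.H47.KG.TRQ
import Pool.Agent.H49.KG.OS0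
import Pool.Agent.H59.KG.TRP
import Pool.Agent.H62.KG.ZSM
import Pool.Agent.H72.KG.BAY
import Pool.Agent.H72.KG.FPI
import Pool.Agent.H72.KG.HBB
import Pool.Agent.H82.KG.MGL
import Pool.Agent.H83.KG.RGC
import Pool.Agent.H85.KG.AAG
import Pool.Agent.H85.KG.DYN
import Pool.Agent.H85.KG.PMG
import Pool.Agent.H85.KG.PWB
import Pool.Agent.H85.KG.RGP
import Pool.Agent.H85.KG.WHI
import Pool.Agent.H9.KG.OSF

/-!
# Project KH: assembly
-/

set_option autoImplicit false
set_option linter.unusedSectionVars false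

open MeasureTheory Set Filter Topology
open scoped ContDiff

namespace Pool.Agent.H20.KH

open Pool.Agent.H84 Pool.Agent.H84.Sym Pool.Agent.H84.Sym.P2x Pool.Agent.H19.KL
open Pool.Agent.H73.KG

section

variable (E : Type) [NormedAddCommGroup E] [InnerProductSpace ℝ E]
    [FiniteDimensional ℝ E] [MeasurableSpace E] [BorelSpace E]

/-- module GIN with the form of INV that was proved -/
theorem gin_thm2 (h1 : BASStmt E)
    (h2 : PWBStmt E) (h3 : EIGStmt E) (h4 : WHIStmt E) (h5 : MTIStmt) (h6 : FPBStmt E)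
    (h7 : INVStmt' E) : GINStmt E := by
  intro U t hU s K hs hK ι _ _ b p hp θ
  have ht : 0 < t := by
    obtain ⟨⟨C, hC⟩, _⟩ := hU
    exact hC.pos
  have hP : ∀ r η, 0 ≤ r → PP (pw U r η) (t + r) := (h2 U t hU).1
  have hV : PP (pw U s θ) s := h1.1 _ _ _ (hP s θ hs.le) hs (by linarith)
  obtain ⟨c, lam, hlam, hc⟩ := h3 _ _ hV ι b
  have hinv : ∀ r η, 0 ≤ r → FP p (cm b (pw U r η)) = FP p (cm c (pw U r η)) :=
    fun r η hr => h7.2 _ _ (hP r η hr) ι b c p
  have e1 : gen b U (fun s θ => FP p (cm b (pw U s θ))) s θ =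
      gen c U (fun s θ => FP p (cm b (pw U s θ))) s θ :=
    h7.1 U t hU _ (h6 U t hU ι b p hp).1 ι b c s θ hs
  have e2 : gen c U (fun s θ => FP p (cm b (pw U s θ))) s θ =
      gen c U (fun s θ => FP p (cm c (pw U s θ))) s θ := by
    have e3 : (fun η => FP p (cm b (pw U s η))) = fun η => FP p (cm c (pw U s η)) :=
      funext fun η => hinv s η hs.le
    have e4 : deriv (fun r => FP p (cm b (pw U r θ))) s =
        deriv (fun r => FP p (cm c (pw U r θ))) s := by
      apply Filter.EventuallyEq.deriv_eq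
      filter_upwards [Ioi_mem_nhds hs] with r hr
      exact hinv r θ (le_of_lt hr)
    unfold gen
    simp only [e3, e4]
  rw [e1, e2, (h6 U t hU ι c p hp).2 s θ hs, hinv s θ hs.le, hc]
  exact h5 ι lam (fun i j k => t3 (pw U s θ) (c i) (c j) (c k)) K p hlam hp
    (fun i j k => ⟨GIN_t3_swap12 _ _ _ _, GIN_t3_swap23 _ _ _ _⟩)
    (h4 _ _ _ hV hK ι c lam hlam hc)

/-- a bound for the quadratic constant bounds the third moments -/
theorem tk_of_qk (τ K : ℝ) (hK : 0 ≤ K) (h : QK E τ K) : TK E τ K := by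
  intro U hU hc θ hθ ι _ b
  obtain ⟨⟨C, hP⟩, hp⟩ := id hU
  have h1 := h U hU hc (li θ) (BAS_li θ) ι b
  have e : ∀ i j, t3 U θ (b i) (b j) = q2 U (li θ) (b i) (b j) := by
    intro i j
    have hG : GC (fun x => (li (b i) x - mn U (b i)) * (li (b j) x - mn U (b j))) :=
      ((BAS_li (b i)).sub (GC.const _)).mul ((BAS_li (b j)).sub (GC.const _))
    have i1 : Integrable (fun x => li θ x * ((li (b i) x - mn U (b i)) *
        (li (b j) x - mn U (b j)))) (mu U) := ((BAS_li θ).mul hG).integrable hP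
    have i2 := hG.integrable hP
    unfold q2 H73.KG.cv t3
    have e1 : ∫ x, li θ x ∂(mu U) = mn U θ := rfl
    rw [e1, ← integral_const_mul, ← integral_sub i1 (i2.const_mul _)]
    congr 1
    funext x
    ring
  simp only [e]
  have h2 := hc θ
  rw [hθ] at h2
  have h3 : K * cv U (li θ) (li θ) ≤ K * (1 * 1 ^ 2) := mul_le_mul_of_nonneg_left h2 hK
  linarith

end

/-- module TKL from module QL2 -/
theorem tkl_of_ql2 (h : QL2Stmt) : TKLStmt := by
  obtain ⟨C, hC, hQ⟩ := h
  refine ⟨2 * C, by linarith, ?_⟩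
  intro E _ _ _ _ _ s hs hs2
  have hL : 0 ≤ L2 (Module.finrank ℝ E) := by
    unfold L2 L1
    refine Real.log_nonneg ?_
    rw [Real.le_log_iff_exp_le (by positivity)]
    have h1 := Real.exp_one_lt_d9
    have h2 : (0:ℝ) ≤ (Module.finrank ℝ E : ℝ) := Nat.cast_nonneg _
    linarith
  have hlog2 : Real.log 2 ≤ Real.log (1 / s) :=
    Real.log_le_log (by norm_num) (by rw [le_div_iff₀ hs]; linarith)
  have hl : Real.log (1 / (s / 2)) ≤ 2 * Real.log (1 / s) := by
    have e : 1 / (s / 2) = 2 * (1 / s) := by field_simp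
    rw [e, Real.log_mul (by norm_num) (by positivity)]
    linarith
  have hl0 : 0 ≤ Real.log (1 / s) := le_trans (Real.log_nonneg (by norm_num)) hlog2
  have hl1 : 0 ≤ Real.log (1 / (s / 2)) :=
    Real.log_nonneg (by rw [le_div_iff₀ (by positivity)]; linarith)
  have h1 := tk_of_qk E (s / 2) _ (by positivity) (hQ E (s / 2) (by positivity) (by linarith))
  intro U hU hc θ hθ ι _ b
  refine (h1 U hU hc θ hθ ι b).trans ?_
  have : Real.log (1 / (s / 2)) + L2 (Module.finrank ℝ E) ≤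
      2 * (Real.log (1 / s) + L2 (Module.finrank ℝ E)) := by linarith
  nlinarith

end Pool.Agent.H20.KH
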