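import Pool.Agent.H20.KH.OF2
import Pool.Agent.H4.KH.TP2
import Pool.Agent.H47.KH.TCY
import Pool.Agent.H2.KG.IMP
import Pool.Agent.H94.Sym.P5

/-!
# Project KH, module LI3: the third order improved Lichnerowicz inequality
(direct proof, after helper86)
-/

set_option autoImplicit false
set_option linter.unusedSectionVars false

open MeasureTheory Set Filter Topology
open scoped ContDiff

namespace Pool.Agent.H20.KH

open Pool.Agent.H84 Pool.Agent.H84.Sym Pool.Agent.H84.Sym.P2x Pool.Agent.H84.Sym.C29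
open Pool.Agent.H19.KL Pool.Agent.H73.KG

section

variable {E : Type} [NormedAddCommGroup E] [InnerProductSpace ℝ E]
    [FiniteDimensional ℝ E] [MeasurableSpace E] [BorelSpace E]
variable {ι : Type} [Fintype ι]

/-- bound of the variance of the gradient by the generator -/
def DV (b : OrthonormalBasis ι ℝ E) (U : E → ℝ) (L : ℝ) : Prop := ∀ u : E → ℝ, Tst u →
  ∑ j, ((∫ x, (D (b j) u x) ^ 2 ∂(mu U)) - (∫ x, D (b j) u x ∂(mu U)) ^ 2) ≤
    L * ∫ x, (LO b U u x) ^ 2 ∂(mu U)

theorem LI3_mean {b : OrthonormalBasis ι ℝ E} {U w : E → ℝ} {t C : ℝ} (hU : Pot U t C)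
    (hw : Tst w) (i : ι) : ∫ x, LO b U w x ∂(mu U) = 0 ∧
    cv U (li (b i)) (LO b U w) = -∫ x, D (b i) w x ∂(mu U) := by
  classical
  have hU1 : ContDiff ℝ 1 U := hU.smooth.of_le (by norm_num)
  have hw2 : ContDiff ℝ 2 w := by simpa using contDiff_infty.mp hw.1 2
  have g0 := green b (f := fun _ => (1:ℝ)) hU1 hw2 contDiff_const (Or.inl hw.2)
  have e0 : ∫ x, LO b U w x ∂(mu U) = 0 := by
    have h1 : ∀ x, (∑ i, D (b i) w x * D (b i) (fun _ : E => (1:ℝ)) x) = 0 := by
      intro x
      refine Finset.sum_eq_zero fun i _ => ?_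
      simp [D]
    simp only [h1, mul_one, integral_zero, neg_zero] at g0
    exact g0
  refine ⟨e0, ?_⟩
  have g1 := green b (f := li (b i)) hU1 hw2 (IMP_li_smooth (b i)) (Or.inl hw.2)
  have h2 : ∀ x, ∑ k, D (b k) w x * D (b k) (li (b i)) x = D (b i) w x := by
    intro x
    rw [Finset.sum_eq_single i]
    · rw [IMP_D_li, real_inner_self_eq_norm_sq, b.norm_eq_one]
      ring
    · intro k _ hk
      rw [IMP_D_li, b.inner_eq_zero (Ne.symm hk)]
      ring
    · intro h
      exact absurd (Finset.mem_univ i) h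
  simp only [h2] at g1
  unfold Pool.Agent.H73.KG.cv
  rw [e0, mul_zero, sub_zero, ← g1]
  exact integral_congr_ae (ae_of_all _ fun x => by ring)

theorem LI3_alg {a z δ : ℝ} (hδ : 0 < δ) (hδ1 : δ ≤ 1) (f3 : z ^ 2 ≤ δ ^ 2) :
    (-a / 2 - z) ^ 2 ≤ (1 + δ) / 4 * a ^ 2 + 2 * δ := by
  have h2 : 0 ≤ (δ * (a / 2) - z) ^ 2 / δ := by positivity
  have h3 : (δ * (a / 2) - z) ^ 2 / δ = δ * (a / 2) ^ 2 + 1 / δ * z ^ 2 -
      2 * ((a / 2) * z) := by
    field_simp
    ring
  have h4 : (-a / 2 - z) ^ 2 = (a / 2) ^ 2 + 2 * ((a / 2) * z) + z ^ 2 := by ring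
  have h5 : (1 + 1 / δ) * z ^ 2 = z ^ 2 + 1 / δ * z ^ 2 := by ring
  have h6 : (1 + 1 / δ) * z ^ 2 ≤ 2 * δ := by
    have h7 := mul_le_mul_of_nonneg_left f3 (by positivity : (0:ℝ) ≤ 1 + 1 / δ)
    have h8 : (1 + 1 / δ) * δ ^ 2 = δ ^ 2 + δ := by field_simp
    have h9 : δ ^ 2 ≤ δ := by nlinarith
    linarith
  have h10 : (1 + δ) / 4 * a ^ 2 = (a / 2) ^ 2 + δ * (a / 2) ^ 2 := by ring
  linarith

theorem LI3_step (b : OrthonormalBasis ι ℝ E) {U : E → ℝ} {t C K L : ℝ} (hU : Pot U t C)
    (hp : IsProbabilityMeasure (mu U)) (hcov : CovLe U 1) (hK : 0 ≤ K) (hQ : QB U K) (hL : 0 < L)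
    (hDV : DV b U L) : DV b U ((L + K / (4 * L)) / (1 + t * L)) := by
  classical
  intro u hu
  have ht := hU.pos
  have hU1 : ContDiff ℝ 1 U := hU.smooth.of_le (by norm_num)
  have hu1 : ContDiff ℝ 1 u := hu.1.of_le (by exact_mod_cast (le_top : (1 : ℕ∞) ≤ ⊤))
  have hu2 : ContDiff ℝ 2 u := by simpa using contDiff_infty.mp hu.1 2
  have hcs := fun {f g : E → ℝ} (hf : GC f) (hg : GC g) => BAS_cs hU hp hf hg
  -- notation
  set n : ℝ := ((Fintype.card ι : ℕ) : ℝ) with hn
  set H : ℝ := ∫ x, (LO b U u x) ^ 2 ∂(mu U) with hH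
  set m : ι → ℝ := fun j => ∫ x, D (b j) u x ∂(mu U) with hm
  have gD : ∀ j, GC (D (b j) u) := fun j => GC.of_BC (tst_BC (tst_D hu (b j)))
  have gL : GC (LO b U u) := GC.of_BC (LO_BC b hU1 hu)
  set R : ι → E → ℝ := fun j x => D (b j) u x - m j with hR
  have gR : ∀ j, GC (R j) := fun j => (gD j).sub (GC.const _)
  set V : ι → ℝ := fun j => ∫ x, (R j x) ^ 2 ∂(mu U) with hV
  have hV0 : ∀ j, 0 ≤ V j := fun j => integral_nonneg fun x => sq_nonneg _
  have hVe : ∀ j, (∫ x, (D (b j) u x) ^ 2 ∂(mu U)) - (m j) ^ 2 = V j := by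
    intro j
    have e1 : ∀ x, (R j x) ^ 2 = (D (b j) u x) ^ 2 - 2 * m j * D (b j) u x + m j ^ 2 := by
      intro x; simp only [hR]; ring
    simp only [hV, e1]
    rw [integral_add, integral_sub, integral_const_mul]
    · simp only [integral_const, probReal_univ, smul_eq_mul, one_mul]
      have : ∫ x, D (b j) u x ∂(mu U) = m j := rfl
      rw [this]
      ring
    · exact (gD j).sq.integrable hU
    · exact ((gD j).integrable hU).const_mul _
    · exact ((gD j).sq.integrable hU).sub (((gD j).integrable hU).const_mul _)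
    · exact integrable_const _
  set X : ℝ := ∑ j, V j with hX
  have hXe : ∑ j, ((∫ x, (D (b j) u x) ^ 2 ∂(mu U)) - (∫ x, D (b j) u x ∂(mu U)) ^ 2) = X :=
    Finset.sum_congr rfl fun j _ => hVe j
  have hX0 : 0 ≤ X := Finset.sum_nonneg fun j _ => hV0 j
  have hH0 : 0 ≤ H := integral_nonneg fun x => sq_nonneg _
  set Hs : ι → ι → E → ℝ := fun i j => D (b i) (D (b j) u) with hHs
  have gHs : ∀ i j, GC (Hs i j) := fun i j =>
    GC.of_BC (tst_BC (tst_D (tst_D hu (b j)) (b i)))
  have hsym : ∀ i j x, Hs i j x = Hs j i x := fun i j x => D_comm hu2 (b i) (b j) x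
  set Y : ℝ := ∑ i, ∑ j, ∫ x, (Hs i j x) ^ 2 ∂(mu U) with hY
  -- Bochner
  have hbo : Y + t * X ≤ H := by
    have h1 := bochner b (q := fun _ => t) hU.smooth continuous_const (fun x v => hU.hess x v)
      (by simpa using contDiff_infty.mp hu.1 3) hu.2
    rw [integral_const_mul] at h1
    have e1 : (∫ x, (∑ i, ‖fderiv ℝ (D (b i) u) x‖ ^ 2) ∂(mu U)) = Y := by
      have e2 : ∀ x, (∑ i, ‖fderiv ℝ (D (b i) u) x‖ ^ 2) = ∑ j, ∑ i, (Hs i j x) ^ 2 := by
        intro x
        exact Finset.sum_congr rfl fun j _ => norm_fderiv_sq b _ x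
      simp only [e2]
      rw [integral_finsetSum _ fun j _ =>
        integrable_finsetSum _ fun i _ => (gHs i j).sq.integrable hU]
      have e3 : ∀ j, ∫ x, (∑ i, (Hs i j x) ^ 2) ∂(mu U) = ∑ i, ∫ x, (Hs i j x) ^ 2 ∂(mu U) :=
        fun j => integral_finsetSum _ fun i _ => (gHs i j).sq.integrable hU
      simp only [e3]
      rw [hY, Finset.sum_comm]
    have e2 : X ≤ ∫ x, ‖fderiv ℝ u x‖ ^ 2 ∂(mu U) := by
      have e3 : ∫ x, ‖fderiv ℝ u x‖ ^ 2 ∂(mu U) = ∑ j, ∫ x, (D (b j) u x) ^ 2 ∂(mu U) := by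
        simp only [norm_fderiv_sq b u]
        exact integral_finsetSum _ fun j _ => (gD j).sq.integrable hU
      rw [e3, hX]
      refine Finset.sum_le_sum fun j _ => ?_
      rw [← hVe j]
      linarith [sq_nonneg (m j)]
    rw [e1] at h1
    nlinarith [mul_le_mul_of_nonneg_left e2 ht.le]
  -- main inequality
  have main : ∀ δ : ℝ, 0 < δ → δ ≤ 1 → 2 * X ≤ L * Y + K * H / (4 * L) + X +
      δ * (2 * X + 3 * n + K * H / (4 * L) + 2 * n ^ 2 / L) := by
    intro δ hδ hδ1
    have hex : ∀ j, ∃ w : E → ℝ, Tst w ∧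
        ∫ x, (LO b U w x + (D (b j) u x - ∫ z, D (b j) u z ∂(mu U))) ^ 2 ∂(mu U) ≤ δ ^ 2 := fun j =>
      TP2_dense b hU hp (gD j) (by positivity)
    choose w hw hwe using hex
    have gLw : ∀ j, GC (LO b U (w j)) := fun j => GC.of_BC (LO_BC b hU1 (hw j))
    set A : ι → E → ℝ := fun j x => LO b U (w j) x + R j x with hA
    have gA : ∀ j, GC (A j) := fun j => (gLw j).add (gR j)
    have hA2 : ∀ j, ∫ x, (A j x) ^ 2 ∂(mu U) ≤ δ ^ 2 := fun j => hwe j
    have gDw : ∀ i j, GC (D (b i) (w j)) := fun i j => GC.of_BC (tst_BC (tst_D (hw j) (b i)))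
    -- (ii), (iii)
    have h1 : ∀ j, 2 * V j ≤ δ * (V j + 1) +
        2 * ∑ i, ∫ x, D (b i) (w j) x * Hs i j x ∂(mu U) := by
      intro j
      have hDj1 : ContDiff ℝ 1 (D (b j) u) :=
        (tst_D hu (b j)).1.of_le (by exact_mod_cast (le_top : (1 : ℕ∞) ≤ ⊤))
      have g1 := green_sub b hU1 (hw j) hDj1 (m j)
      have g2 : ∫ x, (∑ i, D (b i) (w j) x * D (b i) (D (b j) u) x) ∂(mu U) =
          ∑ i, ∫ x, D (b i) (w j) x * Hs i j x ∂(mu U) :=
        integral_finsetSum _ fun i _ => ((gDw i j).mul (gHs i j)).integrable hU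
      rw [g2] at g1
      have g3 : V j = (∫ x, R j x * A j x ∂(mu U)) -
          ∫ x, LO b U (w j) x * (D (b j) u x - m j) ∂(mu U) := by
        rw [← integral_sub (((gR j).mul (gA j)).integrable hU)
          (((gLw j).mul (gR j)).integrable hU)]
        simp only [hV]
        refine integral_congr_ae (ae_of_all _ fun x => ?_)
        simp only [hA, hR]
        ring
      have g4 : ∫ x, 2 * (R j x * A j x) ∂(mu U) ≤
          ∫ x, (δ * (R j x) ^ 2 + 1 / δ * (A j x) ^ 2) ∂(mu U) := by
        refine integral_mono ((((gR j).mul (gA j)).integrable hU).const_mul _)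
          ((((gR j).sq.integrable hU).const_mul _).add (((gA j).sq.integrable hU).const_mul _))
          fun x => ?_
        have h2 : 0 ≤ (δ * R j x - A j x) ^ 2 / δ := by positivity
        have h3 : (δ * R j x - A j x) ^ 2 / δ = δ * (R j x) ^ 2 + 1 / δ * (A j x) ^ 2 -
            2 * (R j x * A j x) := by
          field_simp
          ring
        simp only
        linarith
      rw [integral_const_mul, integral_add (((gR j).sq.integrable hU).const_mul _)
        (((gA j).sq.integrable hU).const_mul _), integral_const_mul, integral_const_mul] at g4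
      have g5 : 1 / δ * ∫ x, (A j x) ^ 2 ∂(mu U) ≤ δ := by
        have := mul_le_mul_of_nonneg_left (hA2 j) (by positivity : (0:ℝ) ≤ 1 / δ)
        have e : 1 / δ * δ ^ 2 = δ := by field_simp
        linarith
      have g6 : ∫ x, (R j x) ^ 2 ∂(mu U) = V j := rfl
      rw [g6] at g4
      rw [g1] at g3
      linarith
    -- symmetric part
    set S : ι → ι → E → ℝ := fun i j x => (D (b i) (w j) x + D (b j) (w i) x) / 2 with hS
    have gS : ∀ i j, GC (S i j) := by
      intro i j
      have h := (GC.const (H := E) (1/2)).mul ((gDw i j).add (gDw j i))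
      have e : S i j = fun x => 1 / 2 * (D (b i) (w j) x + D (b j) (w i) x) := by
        funext x; simp only [hS]; ring
      rw [e]; exact h
    have h2 : ∑ j, ∑ i, ∫ x, D (b i) (w j) x * Hs i j x ∂(mu U) =
        ∑ j, ∑ i, ∫ x, S i j x * Hs i j x ∂(mu U) := by
      have e1 : ∀ i j, ∫ x, S i j x * Hs i j x ∂(mu U) =
          1 / 2 * (∫ x, D (b i) (w j) x * Hs i j x ∂(mu U)) +
          1 / 2 * ∫ x, D (b j) (w i) x * Hs j i x ∂(mu U) := by
        intro i j
        rw [← integral_const_mul, ← integral_const_mul, ← integral_add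
          ((((gDw i j).mul (gHs i j)).integrable hU).const_mul _)
          ((((gDw j i).mul (gHs j i)).integrable hU).const_mul _)]
        refine integral_congr_ae (ae_of_all _ fun x => ?_)
        simp only [hS]
        rw [hsym j i x]
        ring
      simp only [e1, Finset.sum_add_distrib, ← Finset.mul_sum]
      rw [Finset.sum_comm (f := fun j i => ∫ x, D (b j) (w i) x * Hs j i x ∂(mu U))]
      ring
    have h3 : 2 * ∑ j, ∑ i, ∫ x, S i j x * Hs i j x ∂(mu U) ≤
        L * Y + 1 / L * ∑ j, ∑ i, ∫ x, (S i j x) ^ 2 ∂(mu U) := by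
      have e1 : ∀ i j, 2 * ∫ x, S i j x * Hs i j x ∂(mu U) ≤
          L * (∫ x, (Hs i j x) ^ 2 ∂(mu U)) + 1 / L * ∫ x, (S i j x) ^ 2 ∂(mu U) := by
        intro i j
        rw [← integral_const_mul, ← integral_const_mul, ← integral_const_mul,
          ← integral_add (((gHs i j).sq.integrable hU).const_mul _)
            (((gS i j).sq.integrable hU).const_mul _)]
        refine integral_mono ((((gS i j).mul (gHs i j)).integrable hU).const_mul _)
          ((((gHs i j).sq.integrable hU).const_mul _).add (((gS i j).sq.integrable hU).const_mul _))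
          fun x => ?_
        have h2 : 0 ≤ (L * Hs i j x - S i j x) ^ 2 / L := by positivity
        have h3 : (L * Hs i j x - S i j x) ^ 2 / L = L * (Hs i j x) ^ 2 + 1 / L * (S i j x) ^ 2 -
            2 * (S i j x * Hs i j x) := by
          field_simp
          ring
        simp only
        linarith
      rw [Finset.mul_sum]
      simp only [Finset.mul_sum]
      rw [hY, Finset.mul_sum]
      simp only [Finset.mul_sum]
      rw [Finset.sum_comm (f := fun i j => L * ∫ x, (Hs i j x) ^ 2 ∂(mu U)),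
        ← Finset.sum_add_distrib]
      refine Finset.sum_le_sum fun j _ => ?_
      rw [← Finset.sum_add_distrib]
      exact Finset.sum_le_sum fun i _ => e1 i j
    -- variances
    have hvar : ∀ F : E → ℝ, GC F → (∫ x, F x ∂(mu U)) ^ 2 ≤ ∫ x, (F x) ^ 2 ∂(mu U) := by
      intro F hF
      have h := BAS_nonneg hU hp hF
      have e : cv U F F = (∫ x, (F x) ^ 2 ∂(mu U)) - (∫ x, F x ∂(mu U)) ^ 2 := by
        unfold Pool.Agent.H73.KG.cv
        simp only [← pow_two]
      rw [e] at h
      linarith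
    have h4 : ∀ i j, (∫ x, (S i j x) ^ 2 ∂(mu U)) - (∫ x, S i j x ∂(mu U)) ^ 2 ≤
        1 / 2 * ((∫ x, (D (b i) (w j) x) ^ 2 ∂(mu U)) - (∫ x, D (b i) (w j) x ∂(mu U)) ^ 2) +
        1 / 2 * ((∫ x, (D (b j) (w i) x) ^ 2 ∂(mu U)) - (∫ x, D (b j) (w i) x ∂(mu U)) ^ 2) := by
      intro i j
      have hd := hvar (fun x => D (b i) (w j) x - D (b j) (w i) x) ((gDw i j).sub (gDw j i))
      have e1 : ∫ x, (D (b i) (w j) x - D (b j) (w i) x) ^ 2 ∂(mu U) =
          2 * (∫ x, (D (b i) (w j) x) ^ 2 ∂(mu U)) + 2 * (∫ x, (D (b j) (w i) x) ^ 2 ∂(mu U)) -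
            4 * ∫ x, (S i j x) ^ 2 ∂(mu U) := by
        have i1 : Integrable (fun x => 2 * (D (b i) (w j) x) ^ 2 + 2 * (D (b j) (w i) x) ^ 2)
            (mu U) := (((gDw i j).sq.integrable hU).const_mul _).add
            (((gDw j i).sq.integrable hU).const_mul _)
        rw [← integral_const_mul, ← integral_const_mul, ← integral_const_mul,
          ← integral_add (((gDw i j).sq.integrable hU).const_mul _)
            (((gDw j i).sq.integrable hU).const_mul _),
          ← integral_sub i1 (((gS i j).sq.integrable hU).const_mul _)]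
        refine integral_congr_ae (ae_of_all _ fun x => ?_)
        simp only [hS]
        ring
      have e2 : ∫ x, (D (b i) (w j) x - D (b j) (w i) x) ∂(mu U) =
          (∫ x, D (b i) (w j) x ∂(mu U)) - ∫ x, D (b j) (w i) x ∂(mu U) :=
        integral_sub ((gDw i j).integrable hU) ((gDw j i).integrable hU)
      have e3 : ∫ x, S i j x ∂(mu U) =
          ((∫ x, D (b i) (w j) x ∂(mu U)) + ∫ x, D (b j) (w i) x ∂(mu U)) / 2 := by
        rw [← integral_add ((gDw i j).integrable hU) ((gDw j i).integrable hU), ← integral_div]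
      rw [e1, e2] at hd
      rw [e3]
      nlinarith [hd]
    have h5 : ∑ j, ∑ i, ((∫ x, (S i j x) ^ 2 ∂(mu U)) - (∫ x, S i j x ∂(mu U)) ^ 2) ≤
        L * ((1 + δ) * X + 2 * δ * n) := by
      have e1 := Finset.sum_le_sum fun j (_ : j ∈ Finset.univ) =>
        Finset.sum_le_sum fun i (_ : i ∈ Finset.univ) => h4 i j
      simp only [Finset.sum_add_distrib, ← Finset.mul_sum] at e1
      rw [Finset.sum_comm (f := fun j i => (∫ x, (D (b j) (w i) x) ^ 2 ∂(mu U)) -
        (∫ x, D (b j) (w i) x ∂(mu U)) ^ 2)] at e1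
      have e2 := Finset.sum_le_sum fun j (_ : j ∈ Finset.univ) => hDV (w j) (hw j)
      rw [← Finset.mul_sum] at e2
      have e3 : ∀ j, ∫ x, (LO b U (w j) x) ^ 2 ∂(mu U) ≤ (1 + δ) * V j + 2 * δ := by
        intro j
        have g4 : ∫ x, (LO b U (w j) x) ^ 2 ∂(mu U) ≤
            ∫ x, ((1 + δ) * (R j x) ^ 2 + (1 + 1 / δ) * (A j x) ^ 2) ∂(mu U) := by
          refine integral_mono ((gLw j).sq.integrable hU)
            ((((gR j).sq.integrable hU).const_mul _).add (((gA j).sq.integrable hU).const_mul _))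
            fun x => ?_
          have h2 : 0 ≤ (δ * R j x + A j x) ^ 2 / δ := by positivity
          have h3 : (δ * R j x + A j x) ^ 2 / δ = δ * (R j x) ^ 2 + 1 / δ * (A j x) ^ 2 +
              2 * (R j x * A j x) := by
            field_simp
            ring
          have h4 : LO b U (w j) x = A j x - R j x := by simp only [hA]; ring
          simp only [h4]
          nlinarith [h2, h3]
        rw [integral_add (((gR j).sq.integrable hU).const_mul _)
          (((gA j).sq.integrable hU).const_mul _), integral_const_mul, integral_const_mul] at g4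
        have g5 : (1 + 1 / δ) * ∫ x, (A j x) ^ 2 ∂(mu U) ≤ 2 * δ := by
          have := mul_le_mul_of_nonneg_left (hA2 j) (by positivity : (0:ℝ) ≤ 1 + 1 / δ)
          have e : (1 + 1 / δ) * δ ^ 2 = δ ^ 2 + δ := by field_simp
          nlinarith
        exact g4.trans (by linarith)
      have e4 := Finset.sum_le_sum fun j (_ : j ∈ Finset.univ) => e3 j
      rw [Finset.sum_add_distrib, ← Finset.mul_sum, Finset.sum_const, Finset.card_univ,
        nsmul_eq_mul, ← hn, ← hX] at e4
      have e5 := mul_le_mul_of_nonneg_left e4 hL.le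
      have e6 : L * ((1 + δ) * X + n * (2 * δ)) = L * ((1 + δ) * X + 2 * δ * n) := by ring
      rw [e6] at e5
      linarith
    -- means
    have h6 : ∀ i j, (∫ x, S i j x ∂(mu U)) ^ 2 ≤
        (1 + δ) / 4 * (q2 U (LO b U u) (b i) (b j)) ^ 2 + 2 * δ := by
      intro i j
      have e1 : ∀ i j, ∫ x, D (b i) (w j) x ∂(mu U) = cv U (li (b i)) (D (b j) u) -
          cv U (li (b i)) (A j) := by
        intro i j
        have a1 := (LI3_mean (b := b) hU (hw j) i).2
        have a2 : cv U (li (b i)) (A j) = cv U (li (b i)) (LO b U (w j)) +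
            cv U (li (b i)) (D (b j) u) := by
          have a3 : cv U (A j) (li (b i)) = cv U (LO b U (w j)) (li (b i)) +
              cv U (R j) (li (b i)) := OF2_add U hU (gLw j) (gR j) (BAS_li _)
          have a4 : cv U (R j) (li (b i)) = cv U (D (b j) u) (li (b i)) := by
            have a5 : cv U (R j) (li (b i)) = cv U (D (b j) u) (li (b i)) +
                cv U (fun _ => -m j) (li (b i)) := by
              have := OF2_add U hU (gD j) (GC.const (-m j)) (BAS_li (b i))
              have e : R j = fun x => D (b j) u x + -m j := by funext x; simp only [hR]; ring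
              rw [e]; exact this
            have a6 : cv U (fun _ => -m j) (li (b i)) = 0 := by
              unfold Pool.Agent.H73.KG.cv
              rw [integral_const_mul]
              simp only [integral_const, probReal_univ, smul_eq_mul, one_mul]
              ring
            rw [a5, a6, add_zero]
          rw [OF2_comm U (li (b i)) (A j), a3, a4, OF2_comm U (LO b U (w j)),
            OF2_comm U (D (b j) u)]
        rw [a2, a1]
        ring
      have e2 := Pool.Agent.H47.KH.sym_part hU hp b hu i j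
      have e3 : ∀ i j, (cv U (li (b i)) (A j)) ^ 2 ≤ δ ^ 2 := by
        intro i j
        have a1 := hcs (BAS_li (b i)) (gA j)
        have a2 : cv U (A j) (A j) ≤ δ ^ 2 := Pool.Agent.H47.KH.cv_le_sq.trans (hA2 j)
        have a3 := hcov (b i)
        rw [b.norm_eq_one] at a3
        have a4 := BAS_nonneg hU hp (gA j)
        have a5 := BAS_nonneg hU hp (BAS_li (b i))
        have a6 := mul_le_mul a3 a2 a4 (by norm_num : (0:ℝ) ≤ 1 * 1 ^ 2)
        have a7 : (1:ℝ) * 1 ^ 2 * δ ^ 2 = δ ^ 2 := by ring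
        linarith
      have e4 : ∫ x, S i j x ∂(mu U) = -(q2 U (LO b U u) (b i) (b j)) / 2 -
          (cv U (li (b i)) (A j) + cv U (li (b j)) (A i)) / 2 := by
        have a1 : ∫ x, S i j x ∂(mu U) =
            ((∫ x, D (b i) (w j) x ∂(mu U)) + ∫ x, D (b j) (w i) x ∂(mu U)) / 2 := by
          rw [← integral_add ((gDw i j).integrable hU) ((gDw j i).integrable hU), ← integral_div]
        rw [a1, e1 i j, e1 j i, ← e2]
        ring
      rw [e4]
      set a := q2 U (LO b U u) (b i) (b j) with ha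
      set c1 := cv U (li (b i)) (A j) with hc1
      set c2 := cv U (li (b j)) (A i) with hc2
      have f1 := e3 i j
      have f2 := e3 j i
      rw [← hc1] at f1
      rw [← hc2] at f2
      have f3 : ((c1 + c2) / 2) ^ 2 ≤ δ ^ 2 := by
        have f0 : ((c1 + c2) / 2) ^ 2 = (c1 ^ 2 + c2 ^ 2) / 2 - ((c1 - c2) / 2) ^ 2 := by ring
        have f00 := sq_nonneg ((c1 - c2) / 2)
        linarith
      exact LI3_alg hδ hδ1 f3
    have h7 : ∑ j, ∑ i, (∫ x, S i j x ∂(mu U)) ^ 2 ≤ (1 + δ) / 4 * (K * H) + 2 * δ * n ^ 2 := by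
      have e1 := Finset.sum_le_sum fun j (_ : j ∈ Finset.univ) =>
        Finset.sum_le_sum fun i (_ : i ∈ Finset.univ) => h6 i j
      simp only [Finset.sum_add_distrib, ← Finset.mul_sum, Finset.sum_const, Finset.card_univ,
        nsmul_eq_mul, ← hn] at e1
      have e2 := hQ (LO b U u) gL ι b
      have e3 : cv U (LO b U u) (LO b U u) = H := by
        rcases isEmpty_or_nonempty ι with hι | ⟨⟨i⟩⟩
        · unfold Pool.Agent.H73.KG.cv
          have : ∀ x, LO b U u x = 0 := fun x => by simp [LO]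
          simp [hH, this]
        · have := (LI3_mean (b := b) hU hu i).1
          unfold Pool.Agent.H73.KG.cv
          rw [this]
          simp only [← pow_two]
          ring
      rw [e3, Finset.sum_comm] at e2
      have e4 := mul_le_mul_of_nonneg_left e2 (by positivity : (0:ℝ) ≤ (1 + δ) / 4)
      nlinarith [e1, e4]
    have h8 := Finset.sum_le_sum fun j (_ : j ∈ Finset.univ) => h1 j
    have e8 : ∑ j, (δ * (V j + 1) + 2 * ∑ i, ∫ x, D (b i) (w j) x * Hs i j x ∂(mu U)) =
        δ * (X + n) + 2 * ∑ j, ∑ i, ∫ x, D (b i) (w j) x * Hs i j x ∂(mu U) := by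
      rw [Finset.sum_add_distrib, ← Finset.mul_sum, ← Finset.mul_sum, Finset.sum_add_distrib,
        Finset.sum_const, Finset.card_univ, nsmul_eq_mul, ← hn, ← hX, mul_one]
    rw [e8, ← Finset.mul_sum, ← hX, h2] at h8
    have h9 : ∑ j, ∑ i, ∫ x, (S i j x) ^ 2 ∂(mu U) ≤ L * ((1 + δ) * X + 2 * δ * n) +
        ((1 + δ) / 4 * (K * H) + 2 * δ * n ^ 2) := by
      simp only [Finset.sum_sub_distrib] at h5
      linarith
    have h10 := mul_le_mul_of_nonneg_left h9 (by positivity : (0:ℝ) ≤ 1 / L)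
    have e10 : 1 / L * (L * ((1 + δ) * X + 2 * δ * n) +
        ((1 + δ) / 4 * (K * H) + 2 * δ * n ^ 2)) = (1 + δ) * X + 2 * δ * n +
        (K * H / (4 * L) + δ * (K * H / (4 * L)) + δ * (2 * n ^ 2 / L)) := by
      field_simp
    rw [e10] at h10
    linarith
  -- limit
  have hfin : X ≤ L * Y + K * H / (4 * L) := by
    refine le_of_forall_pos_le_add fun ε hε => ?_
    set M := 2 * X + 3 * n + K * H / (4 * L) + 2 * n ^ 2 / L with hM
    have hn0 : 0 ≤ n := by rw [hn]; positivity
    have hM0 : 0 ≤ M := by positivity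
    have hd : 0 < min 1 (ε / (M + 1)) := lt_min one_pos (by positivity)
    have h1 := main _ hd (min_le_left _ _)
    have h2 : min 1 (ε / (M + 1)) * M ≤ ε := by
      have h3 := mul_le_mul_of_nonneg_right (min_le_right 1 (ε / (M + 1))) hM0
      have h4 : ε / (M + 1) * M ≤ ε := by
        rw [div_mul_eq_mul_div, div_le_iff₀ (by positivity)]
        nlinarith
      linarith
    linarith
  rw [hXe, div_mul_eq_mul_div, le_div_iff₀ (by positivity)]
  have h1 : (L + K / (4 * L)) * H = L * H + K * H / (4 * L) := by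
    field_simp
  rw [h1]
  nlinarith [mul_le_mul_of_nonneg_left hbo hL.le]

end

theorem li3_direct (E : Type) [NormedAddCommGroup E] [InnerProductSpace ℝ E]
    [FiniteDimensional ℝ E] [MeasurableSpace E] [BorelSpace E] : LI3Stmt E := by
  rintro U t K ⟨⟨C, hU⟩, hp⟩ ht1 hcov hK hQ
  have ht := hU.pos
  set b := stdOrthonormalBasis ℝ E
  set M : ℝ := (K / t) ^ ((1:ℝ) / 3) with hM
  have hKt : 1 ≤ K / t := by
    rw [le_div_iff₀ ht]; linarith
  have hM1 : 1 ≤ M := Real.one_le_rpow hKt (by norm_num)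
  have hM3 : M ^ 3 = K / t := by
    rw [hM, ← Real.rpow_natCast, ← Real.rpow_mul (by linarith)]
    norm_num
  have htM : t * M ^ 3 = K := by rw [hM3]; field_simp
  -- monotonicity of DV
  have hmono : ∀ L L' : ℝ, L ≤ L' → DV b U L → DV b U L' := fun L L' h hd u hu =>
    (hd u hu).trans (mul_le_mul_of_nonneg_right h (integral_nonneg fun x => sq_nonneg _))
  set S : Set ℝ := {L | M ≤ L ∧ DV b U L} with hS
  have hstart : DV b U (1 / t) := by
    intro u hu
    have h1 := P5.coer_of_gpc b hU (BAS_gpc hU) (by positivity) hu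
    refine le_trans ?_ h1
    have e3 : ∫ x, ‖fderiv ℝ u x‖ ^ 2 ∂(mu U) = ∑ j, ∫ x, (D (b j) u x) ^ 2 ∂(mu U) := by
      simp only [norm_fderiv_sq b u]
      exact integral_finsetSum _ fun j _ =>
        (GC.of_BC (tst_BC (tst_D hu (b j)))).sq.integrable hU
    rw [e3]
    refine Finset.sum_le_sum fun j _ => ?_
    linarith [sq_nonneg (∫ x, D (b j) u x ∂(mu U))]
  have hne : S.Nonempty := ⟨max M (1 / t), le_max_left _ _, hmono _ _ (le_max_right _ _) hstart⟩
  have hbd : BddBelow S := ⟨M, fun L hL => hL.1⟩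
  set Ls := sInf S with hLs
  have hML : M ≤ Ls := le_csInf hne fun L hL => hL.1
  have hstep : ∀ L ∈ S, Ls ≤ max M ((L + K / (4 * L)) / (1 + t * L)) := by
    intro L hL
    have hL0 : 0 < L := lt_of_lt_of_le (by linarith) hL.1
    exact csInf_le hbd ⟨le_max_left _ _, hmono _ _ (le_max_right _ _)
      (LI3_step b hU hp hcov (by linarith) hQ hL0 hL.2)⟩
  have hmain : Ls ≤ M := by
    by_contra hcon
    push Not at hcon
    -- for L in S close to Ls the step gives less than Ls
    have h1 : ∀ L ∈ S, Ls * (1 + t * L) ≤ L + K / (4 * L) := by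
      intro L hL
      have hL0 : 0 < L := lt_of_lt_of_le (by linarith) hL.1
      have h2 := hstep L hL
      rcases le_max_iff.1 h2 with h3 | h3
      · linarith
      · rwa [le_div_iff₀ (by positivity)] at h3
    have hLs0 : 0 < Ls := by linarith
    have h2 : Ls * (1 + t * Ls) ≤ Ls + K / (4 * Ls) := by
      refine le_of_forall_pos_le_add fun ε hε => ?_
      obtain ⟨L, hL, hlt⟩ := exists_lt_of_csInf_lt hne (show sInf S < Ls + ε by linarith)
      have h3 := h1 L hL
      have h4 : Ls ≤ L := csInf_le hbd hL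
      have h5 : Ls * (1 + t * Ls) ≤ Ls * (1 + t * L) := by
        refine mul_le_mul_of_nonneg_left ?_ hLs0.le
        nlinarith
      have h6 : K / (4 * L) ≤ K / (4 * Ls) := by
        apply div_le_div_of_nonneg_left (by linarith) (by positivity)
        linarith
      linarith
    have h3 : t * Ls ^ 2 ≤ K / (4 * Ls) := by nlinarith
    rw [le_div_iff₀ (by positivity)] at h3
    have h4 : M ^ 3 ≤ Ls ^ 3 := pow_le_pow_left₀ (by linarith) hcon.le 3
    have h5 := mul_le_mul_of_nonneg_left h4 ht.le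
    rw [htM] at h5
    nlinarith
  have hLM : Ls = M := le_antisymm hmain hML
  have hDM : DV b U M := by
    intro u hu
    set G := ∫ x, (LO b U u x) ^ 2 ∂(mu U) with hG
    have hG0 : 0 ≤ G := integral_nonneg fun x => sq_nonneg _
    refine le_of_forall_pos_le_add fun ε hε => ?_
    obtain ⟨L, hL, hlt⟩ := exists_lt_of_csInf_lt hne (show sInf S < Ls + ε / (G + 1) by
      have : 0 < ε / (G + 1) := by positivity
      linarith)
    have h1 := hL.2 u hu
    have h2 : L * G ≤ (M + ε / (G + 1)) * G := by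
      refine mul_le_mul_of_nonneg_right ?_ hG0
      rw [hLM] at hlt
      exact hlt.le
    have h3 : ε / (G + 1) * G ≤ ε := by
      rw [div_mul_eq_mul_div, div_le_iff₀ (by positivity)]
      nlinarith
    calc _ ≤ L * G := h1
      _ ≤ (M + ε / (G + 1)) * G := h2
      _ = M * G + ε / (G + 1) * G := by ring
      _ ≤ _ := by linarith
  have hk : (0:ℝ) < 1 / (1 + M) := by positivity
  have hg : GPC (mu U) (1 / (1 / (1 + M))) := by
    refine gpc_of_coer b hU hk fun u hu => ?_
    have h1 := IMP_mean b hU hp one_pos hcov hu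
    have h2 := hDM u hu
    have e3 : ∫ x, ‖fderiv ℝ u x‖ ^ 2 ∂(mu U) = ∑ j, ∫ x, (D (b j) u x) ^ 2 ∂(mu U) := by
      simp only [norm_fderiv_sq b u]
      exact integral_finsetSum _ fun j _ =>
        (GC.of_BC (tst_BC (tst_D hu (b j)))).sq.integrable hU
    rw [Finset.sum_sub_distrib, ← e3] at h2
    rw [div_mul_eq_mul_div, div_le_iff₀ (by positivity)]
    linarith
  rw [one_div_one_div] at hg
  exact P6.gpc_mono hg (by linarith)

end Pool.Agent.H20.KH
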