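import Pool.Agent.H20.KH.Stmts
import Pool.Agent.H33.KG.T1P

/-!
# Project KH, module OF2: the telescoping lemma on one fibre, with the variance term
-/

set_option autoImplicit false
set_option linter.unusedSectionVars false

open MeasureTheory Set Filter Topology
open scoped ContDiff

namespace Pool.Agent.H20.KH

open Pool.Agent.H84 Pool.Agent.H84.Sym Pool.Agent.H84.Sym.P2x Pool.Agent.H19.KL
open Pool.Agent.H73.KG

section

variable {E : Type} [NormedAddCommGroup E] [InnerProductSpace ℝ E]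
    [FiniteDimensional ℝ E] [MeasurableSpace E] [BorelSpace E]

theorem OF2_add (U : E → ℝ) {t C : ℝ} (hU : Pot U t C) {f g h : E → ℝ} (hf : GC f) (hg : GC g)
    (hh : GC h) : cv U (fun x => f x + g x) h = cv U f h + cv U g h := by
  unfold Pool.Agent.H73.KG.cv
  have e1 : (∫ x, (f x + g x) * h x ∂(mu U)) = (∫ x, f x * h x ∂(mu U)) +
      ∫ x, g x * h x ∂(mu U) := by
    rw [← integral_add ((hf.mul hh).integrable hU) ((hg.mul hh).integrable hU)]
    exact integral_congr_ae (ae_of_all _ fun x => by ring)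
  have e2 : (∫ x, (f x + g x) ∂(mu U)) = (∫ x, f x ∂(mu U)) + ∫ x, g x ∂(mu U) :=
    integral_add (hf.integrable hU) (hg.integrable hU)
  rw [e1, e2]
  ring

theorem OF2_neg (U f h : E → ℝ) : cv U (fun x => -f x) h = -cv U f h := by
  unfold Pool.Agent.H73.KG.cv
  have e1 : (∫ x, (-f x) * h x ∂(mu U)) = -∫ x, f x * h x ∂(mu U) := by
    rw [← integral_neg]
    exact integral_congr_ae (ae_of_all _ fun x => by ring)
  rw [e1, integral_neg]
  ring

theorem OF2_comm (U f g : E → ℝ) : cv U f g = cv U g f := by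
  unfold Pool.Agent.H73.KG.cv
  have e1 : (∫ x, f x * g x ∂(mu U)) = ∫ x, g x * f x ∂(mu U) :=
    integral_congr_ae (ae_of_all _ fun x => by ring)
  rw [e1]
  ring

theorem OF2_sum (U : E → ℝ) {t C : ℝ} (hU : Pot U t C) {ι : Type} (s : Finset ι) (m : ι → ℝ)
    {f : ι → E → ℝ} {h : E → ℝ} (hf : ∀ i, GC (f i)) (hh : GC h) :
    cv U (fun x => ∑ i ∈ s, m i * f i x) h = ∑ i ∈ s, m i * cv U (f i) h := by
  unfold Pool.Agent.H73.KG.cv
  have e1 : (∫ x, (∑ i ∈ s, m i * f i x) * h x ∂(mu U)) =
      ∑ i ∈ s, m i * ∫ x, f i x * h x ∂(mu U) := by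
    have e : (fun x => (∑ i ∈ s, m i * f i x) * h x) = fun x => ∑ i ∈ s, m i * (f i x * h x) := by
      funext x
      rw [Finset.sum_mul]
      exact Finset.sum_congr rfl fun i _ => by ring
    rw [e, integral_finsetSum _ fun i _ => (((hf i).mul hh).integrable hU).const_mul _]
    exact Finset.sum_congr rfl fun i _ => integral_const_mul _ _
  have e2 : (∫ x, (∑ i ∈ s, m i * f i x) ∂(mu U)) = ∑ i ∈ s, m i * ∫ x, f i x ∂(mu U) := by
    rw [integral_finsetSum _ fun i _ => ((hf i).integrable hU).const_mul _]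
    exact Finset.sum_congr rfl fun i _ => integral_const_mul _ _
  rw [e1, e2, Finset.sum_mul, ← Finset.sum_sub_distrib]
  exact Finset.sum_congr rfl fun i _ => by ring

theorem OF2_Gr_add {f g : E → ℝ} (hf : GC f) (hg : GC g) : Gr (fun x => f x + g x) :=
  (hf.add hg).2

end

theorem of2_thm (E : Type) [NormedAddCommGroup E] [InnerProductSpace ℝ E]
    [FiniteDimensional ℝ E] [MeasurableSpace E] [BorelSpace E] (hO : OSFStmt E) : OF2Stmt E := by
  intro V t hP ι _ b m K hK k q g g1 W hk hkG hg hgG hq hg1 hW hpt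
  obtain ⟨⟨C, hU⟩, hp⟩ := id hP
  obtain ⟨hq1, hqG, -⟩ := T1P_q b m (fun i => mn V (b i))
  have hkC : GC k := ⟨hk.continuous, hkG⟩
  have hgC : GC g := ⟨hg.continuous, hgG⟩
  set Q : E → ℝ := fun x => ∑ i, m i * (li (b i) x - mn V (b i)) ^ 2 with hQ
  have hQe : qc b m V = Q := rfl
  set F : E → ℝ := fun x => g x + Q x with hF
  have hFC : GC F := hgC.add hqG
  have hF1 : ContDiff ℝ 1 F := hg.add hq1
  have hnQ : GC (fun x => -Q x) := by
    have h := (GC.const (H := E) (-1)).mul hqG
    have e : (fun x => -Q x) = fun x => (-1) * Q x := by funext x; ring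
    rw [e]; exact h
  have hnF : GC (fun x => -F x) := by
    have h := (GC.const (H := E) (-1)).mul hFC
    have e : (fun x => -F x) = fun x => (-1) * F x := by funext x; ring
    rw [e]; exact h
  set k' : E → ℝ := fun x => k x + -F x with hk'
  have hk'C : GC k' := hkC.add hnF
  have hk'1 : ContDiff ℝ 1 k' := hk.add hF1.neg
  have h := hO V t hP ι b m K hK k' q (fun x => -Q x) g1 W hk'1 hk'C.2 hq1.neg hnQ.2 hq hg1 hW
    (by
      intro x η
      have hdQ : DifferentiableAt ℝ Q x := hq1.differentiable one_ne_zero x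
      have hdg : DifferentiableAt ℝ g x := hg.differentiable one_ne_zero x
      have hdk : DifferentiableAt ℝ k x := hk.differentiable one_ne_zero x
      have hdF : DifferentiableAt ℝ F x := hF1.differentiable one_ne_zero x
      have e1 : fderiv ℝ (fun x => -Q x) x η = -fderiv ℝ Q x η := by
        rw [fderiv_fun_neg]; rfl
      have e2 : fderiv ℝ k' x η = fderiv ℝ k x η - (fderiv ℝ g x η + fderiv ℝ Q x η) := by
        have a1 : fderiv ℝ k' x = fderiv ℝ k x + fderiv ℝ (fun x => -F x) x :=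
          fderiv_fun_add hdk hdF.neg
        have a2 : fderiv ℝ (fun x => -F x) x = -fderiv ℝ F x := fderiv_fun_neg
        have a3 : fderiv ℝ F x = fderiv ℝ g x + fderiv ℝ Q x := fderiv_fun_add hdg hdQ
        rw [a1, a2, a3]
        simp only [add_apply, neg_apply]
        ring
      have h1 := hpt x η
      rw [e1, e2]
      linarith)
  have c1 : ∑ i, m i * cv V (fun x => (li (b i) x - mn V (b i)) ^ 2) k' = cv V Q k' := by
    rw [hQ, OF2_sum V hU Finset.univ m (fun i => ((BAS_li (b i)).sub (GC.const _)).sq) hk'C]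
  have c2 : ∑ i, m i * cv V (fun x => (li (b i) x - mn V (b i)) ^ 2) k = cv V Q k := by
    rw [hQ, OF2_sum V hU Finset.univ m (fun i => ((BAS_li (b i)).sub (GC.const _)).sq) hkC]
  have c3 : cv V (fun x => -Q x) k' = -cv V Q k' := OF2_neg V Q k'
  have c4 : cv V k' k' = cv V k k - 2 * cv V F k + cv V F F := by
    rw [OF2_add V hU hkC hnF hk'C, OF2_neg, OF2_comm V k k', OF2_comm V F k',
      OF2_add V hU hkC hnF hkC, OF2_add V hU hkC hnF hFC, OF2_neg, OF2_neg, OF2_comm V k F]
    ring
  have c5 : cv V F k = cv V g k + cv V Q k := OF2_add V hU hgC hqG hkC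
  rw [c1, c3, c4, c5] at h
  rw [c2, hQe]
  have c6 : cv V (fun x => g x + Q x) (fun x => g x + Q x) = cv V F F := rfl
  rw [c6]
  linarith

end Pool.Agent.H20.KH
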