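import Pool.Agent.H73.KG.Stmts2

/-!
# Project KH: statements (`ψ_n ≤ C (log n)^{1/6} (log log n)^{1/3}`)

Plan: `/team-store/KLS_SIXTH.md`.  Notation of project KG (`Pool/Agent/H73/KG`).

`q2 U ψ u v` is the covariance of `ψ` with the product of two centred linear functions, `QB U K`
says that the matrix of all these numbers has squared Hilbert-Schmidt norm at most
`K * Var ψ` for every function `ψ` (quadratic Poincare constant `K`).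

For a finite family `w` of test functions: `XX` is the sum of the squares of `L w`, `YY` of the
gradients, `ZZ` of the Hessians, `MM` of the mean gradients, `TT` of the covariances of the partial
derivatives with linear functions (all integrated against `mu U`).
-/

set_option autoImplicit false

open MeasureTheory Set Filter Topology
open scoped ContDiff

namespace Pool.Agent.H20.KH

open Pool.Agent.H84 Pool.Agent.H84.Sym Pool.Agent.H84.Sym.P2x Pool.Agent.H19.KL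
open Pool.Agent.H73.KG

section defs

variable {E : Type} [NormedAddCommGroup E] [InnerProductSpace ℝ E]
    [FiniteDimensional ℝ E] [MeasurableSpace E] [BorelSpace E]

/-- covariance of `ψ` with the product of two centred linear functions -/
noncomputable def q2 (U ψ : E → ℝ) (u v : E) : ℝ :=
  cv U ψ (fun x => (li u x - mn U u) * (li v x - mn U v))

/-- quadratic Poincare constant at most `K` -/
def QB (U : E → ℝ) (K : ℝ) : Prop := ∀ ψ : E → ℝ, GC ψ →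
  ∀ (ι : Type) [Fintype ι] (b : OrthonormalBasis ι ℝ E),
    ∑ i, ∑ j, (q2 U ψ (b i) (b j)) ^ 2 ≤ K * cv U ψ ψ

variable (E) in
/-- quadratic Poincare constant of all `τ`-uniformly log-concave measures with covariance at most
one -/
def QK (τ K : ℝ) : Prop := ∀ U : E → ℝ, PP U τ → CovLe U 1 → QB U K

variable {ι κ : Type} [Fintype ι] [Fintype κ]

/-- sum of the squares of the generator -/
noncomputable def XX (b : OrthonormalBasis ι ℝ E) (U : E → ℝ) (w : κ → E → ℝ) : ℝ :=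
  ∑ I, ∫ x, (LO b U (w I) x) ^ 2 ∂(mu U)

/-- sum of the squares of the gradients -/
noncomputable def YY (U : E → ℝ) (w : κ → E → ℝ) : ℝ :=
  ∑ I, ∫ x, ‖fderiv ℝ (w I) x‖ ^ 2 ∂(mu U)

/-- sum of the squares of the Hessians -/
noncomputable def ZZ (b : OrthonormalBasis ι ℝ E) (U : E → ℝ) (w : κ → E → ℝ) : ℝ :=
  ∑ I, ∫ x, (∑ i, ‖fderiv ℝ (D (b i) (w I)) x‖ ^ 2) ∂(mu U)

/-- sum of the squares of the mean gradients -/
noncomputable def MM (b : OrthonormalBasis ι ℝ E) (U : E → ℝ) (w : κ → E → ℝ) : ℝ :=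
  ∑ I, ∑ i, (∫ x, D (b i) (w I) x ∂(mu U)) ^ 2

/-- sum of the squares of the covariances of the partial derivatives with linear functions -/
noncomputable def TT (b : OrthonormalBasis ι ℝ E) (U : E → ℝ) (w : κ → E → ℝ) : ℝ :=
  ∑ I, ∑ i, ∑ j, (cv U (li (b j)) (D (b i) (w I))) ^ 2

/-- state of the iteration -/
def ST (b : OrthonormalBasis ι ℝ E) (U : E → ℝ) (L B θ Θ : ℝ) : Prop :=
  ∃ (κ : Type) (_ : Fintype κ) (w : κ → E → ℝ), (∀ I, Tst (w I)) ∧ 0 < XX b U w ∧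
    (L - B) * XX b U w ≤ YY U w ∧ MM b U w ≤ θ * XX b U w ∧ TT b U w ≤ Θ * XX b U w

end defs

section iteration

variable (E : Type) [NormedAddCommGroup E] [InnerProductSpace ℝ E]
    [FiniteDimensional ℝ E] [MeasurableSpace E] [BorelSpace E]

/-- KBB: basic inequalities (Bochner, Poincare, covariance at most one) -/
def KBBStmt : Prop := ∀ (U : E → ℝ) (t L : ℝ), PP U t → CovLe U 1 → 0 ≤ L → GPC (mu U) L →
  ∀ (ι κ : Type) [Fintype ι] [Fintype κ] (b : OrthonormalBasis ι ℝ E) (w : κ → E → ℝ),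
  (∀ I, Tst (w I)) →
  ZZ b U w + t * YY U w ≤ XX b U w ∧ YY U w ≤ L * XX b U w ∧
  YY U w - MM b U w ≤ L * ZZ b U w ∧ MM b U w ≤ XX b U w ∧
  0 ≤ XX b U w ∧ 0 ≤ YY U w ∧ 0 ≤ ZZ b U w ∧ 0 ≤ MM b U w ∧ 0 ≤ YY U w - MM b U w

/-- STP: approximate solution of `-L v = h - mean` for a family `h` -/
def STPStmt : Prop := ∀ (U : E → ℝ) (t L : ℝ), PP U t →
  ∀ (ι κ : Type) [Fintype ι] [Fintype κ] (b : OrthonormalBasis ι ℝ E) (h : κ → E → ℝ),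
  (∀ I, ContDiff ℝ 1 (h I) ∧ Gr (h I) ∧ Gr (fun x => ‖fderiv ℝ (h I) x‖)) → ∀ η : ℝ, 0 < η →
  ∃ v : κ → E → ℝ, (∀ I, Tst (v I)) ∧
    |XX b U v - ∑ I, cv U (h I) (h I)| ≤ η ∧
    (∑ I, cv U (h I) (h I)) ^ 2 ≤ (∑ I, ∫ x, ‖fderiv ℝ (h I) x‖ ^ 2 ∂(mu U)) * YY U v + η ∧
    ∑ I, ∫ x, ‖fderiv ℝ (fun x => L * h I x - v I x) x‖ ^ 2 ∂(mu U) ≤
      L ^ 2 * (∑ I, ∫ x, ‖fderiv ℝ (h I) x‖ ^ 2 ∂(mu U)) - 2 * L * (∑ I, cv U (h I) (h I)) +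
        YY U v + η ∧
    MM b U v ≤ (∑ I, ∑ j, (cv U (li (b j)) (h I)) ^ 2) + η

/-- TCY: the three-cycle lemma -/
def TCYStmt : Prop := ∀ (U : E → ℝ) (t L K : ℝ), PP U t → CovLe U 1 → 0 ≤ K → QB U K →
  ∀ (ι κ : Type) [Fintype ι] [Fintype κ] (b : OrthonormalBasis ι ℝ E) (w : κ → E → ℝ)
  (v : ι × κ → E → ℝ), (∀ I, Tst (w I)) → (∀ J, Tst (v J)) → ∀ R : ℝ,
  ∑ J : ι × κ, ∫ x, ‖fderiv ℝ (fun x => L * D (b J.1) (w J.2) x - v J x) x‖ ^ 2 ∂(mu U) ≤ R →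
  TT b U v ≤ 9 / 4 * (Real.sqrt (K * XX b U v) + 2 * Real.sqrt R) ^ 2

/-- STE: one step of the iteration -/
def STEStmt : Prop := ∀ (U : E → ℝ) (t L K : ℝ), PP U t → CovLe U 1 → 100 ≤ L →
  GPC (mu U) L → 1 ≤ K → QB U K → 60 * K + 700 ≤ t * L ^ 3 →
  ∀ (ι : Type) [Fintype ι] (b : OrthonormalBasis ι ℝ E) (B : ℝ), B ≤ 11 / 5 →
  ST b U L B (t * L ^ 2 / 10) (5 * K + 60) →
  0 ≤ B ∧ ST b U L (B - t * L ^ 2 / 2) (t * L ^ 2 / 10) (5 * K + 60)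

/-- STB: the start of the iteration -/
def STBStmt : Prop := ∀ (U : E → ℝ) (t L K : ℝ), PP U t → CovLe U 1 → 100 ≤ L →
  GPC (mu U) L → 1 ≤ K → QB U K → 60 * K + 700 ≤ t * L ^ 3 → ¬ GPC (mu U) (L - 1 / 200) →
  ∀ (ι : Type) [Fintype ι] (b : OrthonormalBasis ι ℝ E),
  ST b U L (11 / 5) (t * L ^ 2 / 10) (5 * K + 60)

/-- LI3: the third order improved Lichnerowicz inequality -/
def LI3Stmt : Prop := ∀ (U : E → ℝ) (t K : ℝ), PP U t → t ≤ 1 → CovLe U 1 → 1 ≤ K → QB U K →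
  GPC (mu U) (100 * (K / t) ^ ((1:ℝ) / 3))

/-- LIS: the same for covariance at most `Λ` -/
def LISStmt : Prop := ∀ (U : E → ℝ) (s Λ K : ℝ), PP U s → s ≤ 1 → 1 ≤ Λ → CovLe U Λ → 1 ≤ K →
  QK E s K → GPC (mu U) (Λ * (100 * (K / s) ^ ((1:ℝ) / 3)))

end iteration

section fibres

variable (E : Type) [NormedAddCommGroup E] [InnerProductSpace ℝ E]
    [FiniteDimensional ℝ E] [MeasurableSpace E] [BorelSpace E]

/-- centred quadratic form on a fibre -/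
noncomputable def qc {E : Type} [NormedAddCommGroup E] [InnerProductSpace ℝ E]
    [FiniteDimensional ℝ E] [MeasurableSpace E] [BorelSpace E] {ι : Type} [Fintype ι]
    (b : OrthonormalBasis ι ℝ E) (m : ι → ℝ) (V : E → ℝ) (x : E) : ℝ :=
  ∑ i, m i * (li (b i) x - mn V (b i)) ^ 2

/-- OF2: the telescoping lemma on one fibre, with the variance term -/
def OF2Stmt : Prop := ∀ (V : E → ℝ) (t : ℝ), PP V t → ∀ (ι : Type) [Fintype ι]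
  (b : OrthonormalBasis ι ℝ E) (m : ι → ℝ) (K : ℝ), (∀ φ : E → ℝ, Tst φ → HH b m V φ ≤ K) →
  ∀ k q g g1 W : E → ℝ, ContDiff ℝ 1 k → Gr k → ContDiff ℝ 1 g → Gr g → GC q → GC g1 → GC W →
  (∀ x η : E, 2 * g1 x + 2 * fderiv ℝ g x η - q x - 2 * fderiv ℝ k x η -
    fderiv ℝ (fderiv ℝ V) x η η ≤ W x) →
  2 * ((∫ x, g1 x ∂(mu V)) - cv V g k -
      ∑ i, m i * cv V (fun x => (li (b i) x - mn V (b i)) ^ 2) k) -
    ((∫ x, q x ∂(mu V)) - cv V k k) +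
    cv V (fun x => g x + qc b m V x) (fun x => g x + qc b m V x) ≤ (∫ x, W x ∂(mu V)) + K

/-- OL2: the telescoping lemma with the variance term -/
def OL2Stmt : Prop := ∀ (U : E → ℝ) (t : ℝ), BP U t → ∀ (S : Submodule ℝ E) (κ : Type)
  [Fintype κ] (c : OrthonormalBasis κ ℝ S) (m : κ → ℝ) (g W : E → ℝ) (K2 : Sᗮ → ℝ),
  OSI U g W → Continuous K2 → (∃ B : ℝ, ∀ z, |K2 z| ≤ B) →
  (∀ (z : Sᗮ) (φ : S → ℝ), Tst φ → HH c m (fb S U z) φ ≤ K2 z) →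
  OSI (mg S U)
    (fun z => cav S U g z + ∑ i, m i * cv (fb S U z) (li (c i)) (li (c i)))
    (fun z => cav S U W z + K2 z -
      cv (fb S U z) (fun x => g ((x : E) + (z : E)) + qc c m (fb S U z) x)
        (fun x => g ((x : E) + (z : E)) + qc c m (fb S U z) x))

/-- SP2: splitting of covariances along fibres -/
def SP2Stmt : Prop := ∀ (U : E → ℝ) (t : ℝ), BP U t → ∀ (S : Submodule ℝ E) (ψ F : E → ℝ),
  GC ψ → GC F →
  GC (cav S U ψ) ∧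
  Integrable (fun z : Sᗮ => cv (fb S U z) (fun x => ψ ((x : E) + (z : E)))
    (fun x => F ((x : E) + (z : E)))) (mu (mg S U)) ∧
  cv U ψ F = (∫ z : Sᗮ, cv (fb S U z) (fun x => ψ ((x : E) + (z : E)))
    (fun x => F ((x : E) + (z : E))) ∂(mu (mg S U))) + cv (mg S U) (cav S U ψ) (cav S U F)

/-- QS2: splitting of a quadratic form along fibres -/
def QS2Stmt : Prop := ∀ (U : E → ℝ) (t : ℝ), BP U t → t ≤ 1 →
  ∀ (S : Submodule ℝ E) (κ : Type) [Fintype κ] (c : OrthonormalBasis κ ℝ S) (m : κ → ℝ) (β : ℝ),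
  (∀ i, |m i| ≤ β) → 0 ≤ β → ∀ ψ : E → ℝ, GC ψ →
  Integrable (fun z : Sᗮ => cv (fb S U z) (fun x => ψ ((x : E) + (z : E)))
    (qc c m (fb S U z))) (mu (mg S U)) ∧
  |(∑ i, m i * q2 U ψ (c i) (c i)) -
    ((∫ z : Sᗮ, cv (fb S U z) (fun x => ψ ((x : E) + (z : E))) (qc c m (fb S U z)) ∂(mu (mg S U))) +
      cv (mg S U) (cav S U ψ) (fun z => ∑ i, m i * cv (fb S U z) (li (c i)) (li (c i))))| ≤
    4 * β * Real.sqrt (Module.finrank ℝ Sᗮ) / t ^ 2 * Real.sqrt (cv U ψ ψ)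

/-- MQ2: quadratic covariances and marginals -/
def MQ2Stmt : Prop := ∀ (U : E → ℝ) (t : ℝ), BP U t → ∀ (S : Submodule ℝ E) (ψ : E → ℝ), GC ψ →
  (∀ u v : Sᗮ, q2 (mg S U) (cav S U ψ) u v = q2 U ψ (u : E) (v : E)) ∧
  0 ≤ cv (mg S U) (cav S U ψ) (cav S U ψ) ∧
  cv (mg S U) (cav S U ψ) (cav S U ψ) ≤ cv U ψ ψ

/-- SC2: coordinates in which the matrix of `ψ` is diagonal -/
def SC2Stmt : Prop := ∀ (U : E → ℝ) (t : ℝ), PP U t → ∀ ψ : E → ℝ, GC ψ →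
  ∃ (e : ℕ → E) (m : ℕ → ℝ),
    (∀ i < Module.finrank ℝ E, ∀ j < Module.finrank ℝ E,
      inner ℝ (e i) (e j) = (if i = j then (1:ℝ) else 0) ∧
      q2 U ψ (e i) (e j) = (if i = j then m i else 0)) ∧
    (∀ i, Module.finrank ℝ E ≤ i → m i = 0) ∧
    (∀ i j, i ≤ j → |m j| ≤ |m i|) ∧
    ∀ (ι : Type) [Fintype ι] (b : OrthonormalBasis ι ℝ E),
      ∑ i, ∑ j, (q2 U ψ (b i) (b j)) ^ 2 = ∑ i ∈ Finset.range (Module.finrank ℝ E), (m i) ^ 2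

/-- CV2: convolution with the standard Gaussian measure -/
def CV2Stmt : Prop := ∀ τ K : ℝ, 0 < τ → τ ≤ 1 → 0 ≤ K →
  (∀ U : E → ℝ, BP U (τ / 2) → CovLe U 5 → QB U K) → QK E τ K

end fibres

/-- TP2: quadratic covariances against a matrix, all dimensions -/
def TP2Stmt : Prop := ∃ C : ℝ, 1 ≤ C ∧ ∀ (E : Type) [NormedAddCommGroup E] [InnerProductSpace ℝ E]
    [FiniteDimensional ℝ E] [MeasurableSpace E] [BorelSpace E] (U : E → ℝ) (t : ℝ), PP U t →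
  CovLe U 5 → ∀ (ι : Type) [Fintype ι] (b : OrthonormalBasis ι ℝ E) (m : ι → ℝ) (β : ℝ),
  (∀ i, |m i| ≤ β) → 0 ≤ β → ∀ ψ : E → ℝ, GC ψ →
  |∑ i, m i * q2 U ψ (b i) (b i)| ≤
    C * β * Real.sqrt (Fintype.card ι) * Real.sqrt (cv U ψ ψ)

/-- TM2: quadratic covariances against a matrix of small rank -/
def TM2Stmt : Prop := ∃ C : ℝ, 1 ≤ C ∧ ∀ (E : Type) [NormedAddCommGroup E] [InnerProductSpace ℝ E]
    [FiniteDimensional ℝ E] [MeasurableSpace E] [BorelSpace E] (U : E → ℝ) (t : ℝ), BP U t →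
  CovLe U 5 → ∀ (κ : Type) [Fintype κ] (e : κ → E), Orthonormal ℝ e → ∀ (m : κ → ℝ) (β : ℝ),
  (∀ i, |m i| ≤ β) → 0 ≤ β → ∀ ψ : E → ℝ, GC ψ →
  |∑ i, m i * q2 U ψ (e i) (e i)| ≤
    C * β * Real.sqrt (Fintype.card κ) * Real.sqrt (cv U ψ ψ)

/-- the blocks -/
structure Bk0 {E : Type} [NormedAddCommGroup E] [InnerProductSpace ℝ E] (t : ℝ) (r : ℕ)
    (d : ℕ → ℕ) (e : ℕ → ℕ → E) (m : ℕ → ℕ → ℝ) (β Dd : ℕ → ℝ) : Prop where
  orth : ∀ j < r, ∀ i < d j, ∀ j' < r, ∀ i' < d j',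
    inner ℝ (e j i) (e j' i') = (if j = j' ∧ i = i' then (1:ℝ) else 0)
  coef : ∀ j < r, ∀ i < d j, |m j i| ≤ β j
  nonneg : ∀ j < r, 0 ≤ β j
  size : ∀ j < r, (d j : ℝ) ≤ Dd j
  big : ∀ j < r, ∑ i ∈ Finset.range j, (d i : ℝ) ≤ Dd j * t ^ 7

/-- CH2: the chain of blocks, inductive form -/
def CH2Stmt : Prop := ∃ C : ℝ, 1 ≤ C ∧ ∀ (r : ℕ) (E : Type) [NormedAddCommGroup E]
    [InnerProductSpace ℝ E] [FiniteDimensional ℝ E] [MeasurableSpace E] [BorelSpace E]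
    (U : E → ℝ) (t : ℝ), BP U t → t ≤ 1 → CovLe U 5 →
  ∀ (d : ℕ → ℕ) (e : ℕ → ℕ → E) (m : ℕ → ℕ → ℝ) (β Dd : ℕ → ℝ),
  Bk0 t r d e m β Dd → Module.finrank ℝ E ≤ ∑ j ∈ Finset.range r, d j →
  ∀ g W : E → ℝ, OSI U g W → ∀ ψ : E → ℝ, GC ψ →
  2 * cv U ψ g + 2 * (∑ j ∈ Finset.range r, ∑ i ∈ Finset.range (d j),
      m j i * q2 U ψ (e j i) (e j i)) - cv U ψ ψ ≤
    (∫ x, W x ∂(mu U)) + C * ∑ j ∈ Finset.range r, (β j ^ 2 * Dd j +
      β j * Real.sqrt (∑ i ∈ Finset.range j, (d i : ℝ)) / t ^ 2 * Real.sqrt (cv U ψ ψ))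

/-- CF2: the chain of blocks -/
def CF2Stmt : Prop := ∃ C : ℝ, 1 ≤ C ∧ ∀ (E : Type) [NormedAddCommGroup E]
    [InnerProductSpace ℝ E] [FiniteDimensional ℝ E] [MeasurableSpace E] [BorelSpace E]
    (U : E → ℝ) (t : ℝ), BP U t → t ≤ 1 → CovLe U 5 →
  ∀ (r : ℕ) (d : ℕ → ℕ) (e : ℕ → ℕ → E) (m : ℕ → ℕ → ℝ) (β Dd : ℕ → ℝ),
  Bk0 t r d e m β Dd → ∀ ψ : E → ℝ, GC ψ → cv U ψ ψ ≤ 1 →
  ∑ j ∈ Finset.range r, ∑ i ∈ Finset.range (d j), m j i * q2 U ψ (e j i) (e j i) ≤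
    C * Real.sqrt (∑ j ∈ Finset.range r, β j ^ 2 * Dd j) + C * ∑ j ∈ Finset.range r,
      β j * Real.sqrt (∑ i ∈ Finset.range j, (d i : ℝ)) / t ^ 2

/-- TA2: the quadratic Poincare constant of uniformly log-concave measures -/
def TA2Stmt : Prop := ∃ C : ℝ, 1 ≤ C ∧ ∀ (E : Type) [NormedAddCommGroup E]
    [InnerProductSpace ℝ E] [FiniteDimensional ℝ E] [MeasurableSpace E] [BorelSpace E]
    (τ : ℝ) (g : ℕ), 0 < τ → τ ≤ 1 → 1 ≤ g →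
  C * (1 + Nat.log 2 (Module.finrank ℝ E + 1)) ≤ 2 ^ g * τ ^ 7 → QK E τ (C * g)

/-- QL2: the same with real parameters -/
def QL2Stmt : Prop := ∃ C : ℝ, 1 ≤ C ∧ ∀ (E : Type) [NormedAddCommGroup E]
    [InnerProductSpace ℝ E] [FiniteDimensional ℝ E] [MeasurableSpace E] [BorelSpace E]
    (s : ℝ), 0 < s → s ≤ 1 / 2 →
  QK E s (C * (Real.log (1 / s) + L2 (Module.finrank ℝ E)))

/-- VLS: variance of Lipschitz functions and posterior variance -/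
def VLSStmt : Prop := ∃ c C : ℝ, 0 < c ∧ c ≤ 1 / 2 ∧ 1 ≤ C ∧
  ∀ (E : Type) [NormedAddCommGroup E]
    [InnerProductSpace ℝ E] [FiniteDimensional ℝ E] [MeasurableSpace E] [BorelSpace E]
    (U : E → ℝ) (t : ℝ), PP U t → CovLe U 1 → ∀ (ι : Type) [Fintype ι] [DecidableEq ι]
    (b : OrthonormalBasis ι ℝ E) (s : ℝ), 0 < s →
  s ≤ c / (L1 (Module.finrank ℝ E) * L2 (Module.finrank ℝ E)) → (∃ p : ℕ, 1 ≤ p ∧
    EX U s (fun θ => (3 + (4 / 3) ^ p * FP p (cm b (pw U s θ))) ^ ((3:ℝ) / 2)) ≤ 10) ∧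
  ∀ f : E → ℝ, ContDiff ℝ 1 f → (∀ x, ‖fderiv ℝ f x‖ ≤ 1) →
    cv U f f ≤ EX U s (fun θ => cv (pw U s θ) f f) + C

/-- TC2: variance of Lipschitz functions, covariance at most one -/
def TC2Stmt : Prop := ∃ C : ℝ, 1 ≤ C ∧ ∀ (E : Type) [NormedAddCommGroup E]
    [InnerProductSpace ℝ E] [FiniteDimensional ℝ E] [MeasurableSpace E] [BorelSpace E]
    (U : E → ℝ) (t : ℝ), PP U t → CovLe U 1 → ∀ f : E → ℝ, ContDiff ℝ 1 f →
  (∀ x, ‖fderiv ℝ f x‖ ≤ 1) →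
  cv U f f ≤ C * (L1 (Module.finrank ℝ E) * L2 (Module.finrank ℝ E) ^ 2) ^ ((1:ℝ) / 3)

/-- SL2: scaling -/
def SL2Stmt : Prop := ∃ C : ℝ, 1 ≤ C ∧ ∀ (E : Type) [NormedAddCommGroup E]
    [InnerProductSpace ℝ E] [FiniteDimensional ℝ E] [MeasurableSpace E] [BorelSpace E]
    (U : E → ℝ) (t a M : ℝ), PP U t → 0 < a → CovLe U a → 0 ≤ M → ∀ f : E → ℝ, ContDiff ℝ 1 f →
  (∀ x, ‖fderiv ℝ f x‖ ≤ M) →
  cv U f f ≤ C * a * M ^ 2 *
    (L1 (Module.finrank ℝ E) * L2 (Module.finrank ℝ E) ^ 2) ^ ((1:ℝ) / 3)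

/-- BD2: Lipschitz functions on bodies -/
def BD2Stmt : Prop := ∃ C : ℝ, 1 ≤ C ∧ ∀ (E : Type) [NormedAddCommGroup E]
    [InnerProductSpace ℝ E] [FiniteDimensional ℝ E] [MeasurableSpace E] [BorelSpace E]
    (K : Set E) (R s : ℝ), CB K R → 0 < s →
  (∀ v : E, ∫ x in K, (inner ℝ v x) ^ 2 ≤ s ^ 2 * ‖v‖ ^ 2 * volume.real K) →
  PL K (C * s * (L1 (Module.finrank ℝ E) * L2 (Module.finrank ℝ E) ^ 2) ^ ((1:ℝ) / 6))

end Pool.Agent.H20.KH
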